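import Pool.Agent.Helper39.CR.GoalsS

/-!
Project CAR (MP_d97caa_an), packet SIMP: the fixed point algebras of elements of finite order are simple.
-/

open scoped ComplexOrder ZeroAtInfty
open TopologicalSpace

namespace Pool.Agent.Helper13.CR

open Pool.Agent.Helper34.CAR Pool.Agent.Helper39.Uct Pool.Agent.Helper39.CR

noncomputable section

/-! ## The ideal `idl c` -/

section idl

variable {H : Type} [NonUnitalCStarAlgebra H] (c : H)

theorem idl_zero : (0 : H) ∈ idl c := ⟨0, fun _ => 0, fun _ => 0, by simp⟩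

theorem idl_add {a b : H} (ha : a ∈ idl c) (hb : b ∈ idl c) : a + b ∈ idl c := by
  obtain ⟨m, x, y, rfl⟩ := ha
  obtain ⟨m', x', y', rfl⟩ := hb
  refine ⟨m + m', Fin.append x x', Fin.append y y', ?_⟩
  rw [Fin.sum_univ_add]
  congr 1
  · exact Finset.sum_congr rfl fun l _ => by rw [Fin.append_left, Fin.append_left]
  · exact Finset.sum_congr rfl fun l _ => by rw [Fin.append_right, Fin.append_right]

theorem idl_left (g : H) {a : H} (ha : a ∈ idl c) : g * a ∈ idl c := by
  obtain ⟨m, x, y, rfl⟩ := ha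
  refine ⟨m, fun l => g * x l, y, ?_⟩
  rw [Finset.mul_sum]
  exact Finset.sum_congr rfl fun l _ => by rw [← mul_assoc, ← mul_assoc]

theorem idl_right (g : H) {a : H} (ha : a ∈ idl c) : a * g ∈ idl c := by
  obtain ⟨m, x, y, rfl⟩ := ha
  refine ⟨m, x, fun l => y l * g, ?_⟩
  rw [Finset.sum_mul]
  exact Finset.sum_congr rfl fun l _ => by rw [← mul_assoc]

theorem cl_zero : (0 : H) ∈ closure (idl c) := subset_closure (idl_zero c)

theorem cl_add {a b : H} (ha : a ∈ closure (idl c)) (hb : b ∈ closure (idl c)) :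
    a + b ∈ closure (idl c) :=
  map_mem_closure₂ continuous_add ha hb fun _ h _ h' => idl_add c h h'

theorem cl_left (g : H) {a : H} (ha : a ∈ closure (idl c)) : g * a ∈ closure (idl c) :=
  map_mem_closure (continuous_const_mul g) ha fun _ h => idl_left c g h

theorem cl_right (g : H) {a : H} (ha : a ∈ closure (idl c)) : a * g ∈ closure (idl c) :=
  map_mem_closure (f := fun x => x * g) (continuous_mul_const g) ha fun _ h => idl_right c g h

end idl

/-! ## Iterated connecting maps on the graded parts -/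

section push

variable {B : Type} [CStarAlgebra B] {θ : B →⋆ₐ[ℂ] B} (s : Sys B θ) (n k : ℕ)

/-- iterated `kd` -/
def pushG : ∀ m : ℕ, Gd B (wz s n k) → Gd B (wz s n (k + m))
  | 0, a => a
  | m + 1, a => kd s n (k + m) (pushG m a)

theorem pushG_coe (m : ℕ) (a : Gd B (wz s n k)) : (pushG s n k m a).1 = s.push k m a.1 := by
  induction m with
  | zero => rfl
  | succ m ih =>
    change s.κ (k + m) (pushG s n k m a).1 = s.κ (k + m) (s.push k m a.1)
    rw [ih]

theorem pushG_u {H : Type} [NonUnitalCStarAlgebra H] (u : ∀ i, Gd B (wz s n i) →⋆ₙₐ[ℂ] H)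
    (hu : ∀ i a, u (i + 1) (kd s n i a) = u i a) (m : ℕ) (a : Gd B (wz s n k)) :
    u (k + m) (pushG s n k m a) = u k a := by
  induction m with
  | zero => rfl
  | succ m ih =>
    change u (k + m + 1) (kd s n (k + m) (pushG s n k m a)) = u k a
    rw [hu, ih]

end push

theorem sum_single_one {I B : Type} [Fintype I] [DecidableEq I] [CStarAlgebra B] :
    ∑ x : I, (Mt.single x x (1 : B) : Mt I B) = 1 := by
  ext i j
  rw [Mt.sum_apply, Mt.one_apply]
  simp only [Mt.single_apply]
  by_cases h : i = j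
  · subst h
    rw [if_pos rfl, Finset.sum_eq_single i]
    · rw [if_pos ⟨rfl, rfl⟩]
    · intro k _ hk
      exact if_neg fun h => hk h.1.symm
    · intro h
      exact absurd (Finset.mem_univ _) h
  · rw [if_neg h]
    exact Finset.sum_eq_zero fun k _ => if_neg fun h' => h (h'.1.trans h'.2.symm)

theorem single_corner {I B : Type} [Fintype I] [DecidableEq I] [CStarAlgebra B] (a : Mt I B)
    (p q : I) (x : B) :
    (Mt.single p p (1 : B) : Mt I B) * a * Mt.single q p x = Mt.single p p (a p q * x) := by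
  ext i j
  rw [Mt.mul_apply, Mt.single_apply, Finset.sum_eq_single q]
  · rw [Mt.mul_apply, Finset.sum_eq_single p]
    · rw [Mt.single_apply, Mt.single_apply]
      by_cases h1 : i = p <;> by_cases h2 : j = p <;> simp [h1, h2]
    · intro k _ hk
      rw [Mt.single_apply, if_neg, zero_mul]
      rintro ⟨-, h⟩
      exact hk (by rw [h])
    · intro h
      exact absurd (Finset.mem_univ _) h
  · intro k _ hk
    rw [Mt.single_apply q p x, if_neg, mul_zero]
    rintro ⟨h, -⟩
    exact hk (by rw [h])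
  · intro h
    exact absurd (Finset.mem_univ _) h

theorem t_simp (hT : S_TTOW) (hI : Pool.Agent.Helper39.CR.S_IDL) (hA : S_SIMA) (hS : S_SPRD) : S_SIMP := by
  intro E _ s hM L _ ι hL γ Z n hn hF
  have hB : Nontrivial (Unitization ℂ C₀(ℝ, E)) := ⟨⟨0, 1, fun h => by
    have h2 := congrArg (fun b : Unitization ℂ C₀(ℝ, E) => b.fst) h
    simp only [Unitization.fst_zero, Unitization.fst_one] at h2
    exact zero_ne_one h2⟩⟩
  have hL1 : (1 : L) ≠ 0 := by
    intro h
    have h1 : ι 0 1 = ι 0 0 := by rw [map_one, map_zero, h]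
    have h2 := hL.inj 0 h1
    have h3 : (1 : s.A 0) s.s0 s.s0 = (0 : s.A 0) s.s0 s.s0 := by rw [h2]
    rw [Mt.one_apply_eq, Mt.zero_apply] at h3
    exact one_ne_zero h3
  obtain ⟨u, hu, uinj, ukd, udense⟩ := hT _ _ s L ι hL γ Z n hF
  have h1m : (1 : L) ∈ fixA γ Z := fun z _ => map_one _
  refine ⟨⟨1, h1m⟩, fun h => hL1 (congrArg Subtype.val h), fun a =>
    ⟨Subtype.ext (one_mul _), Subtype.ext (mul_one _)⟩, ?_⟩
  intro b hb
  set c : Fix γ Z := star b * b with hc
  have hc0 : c ≠ 0 := fun h => hb (CStarRing.star_mul_self_eq_zero_iff b |>.1 h)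
  have hcs : star c = c := by rw [hc, star_mul, star_star]
  obtain ⟨k, a, ha, haJ⟩ := hI (Fix γ Z) (fun k => Gd (Unitization ℂ C₀(ℝ, E)) (wz s n k)) u uinj
    udense c hcs hc0
  obtain ⟨z, hz, m, p, q, μ, hμ, hpq⟩ := hA E s hM n k a.1 a.2 (fun h => ha (Subtype.ext h))
  -- the corner
  have hkey : u (k + m) (cd _ (wz s n (k + m)) p 1) ∈ closure (idl c) := by
    set az : Gd (Unitization ℂ C₀(ℝ, E)) (wz s n k) := a * ⟨z, hz⟩ with haz
    have h1 : u k az ∈ closure (idl c) := by
      rw [haz, map_mul]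
      exact cl_right c _ haJ
    set pm := pushG s n k m az with hpm
    have h2 : u (k + m) pm ∈ closure (idl c) := by
      rw [hpm, pushG_u s n k u ukd]
      exact h1
    have h3 : pm.1 p q = algebraMap ℂ _ μ := by
      rw [hpm, pushG_coe]
      exact hpq
    have h4 : wz s n (k + m) p = wz s n (k + m) q := by
      by_contra h
      have h5 := pm.2 p q h
      have h6 : pm.1 p q = 0 := h5
      rw [h3] at h6
      exact hμ ((FaithfulSMul.algebraMap_eq_zero_iff ℂ (Unitization ℂ C₀(ℝ, E))).1 h6)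
    have h5 : (Mt.single q p (algebraMap ℂ (Unitization ℂ C₀(ℝ, E)) μ⁻¹) :
        Mt (s.S (k + m)) (Unitization ℂ C₀(ℝ, E))) ∈ grd _ (wz s n (k + m)) := by
      intro x y h
      rw [Mt.single_apply, if_neg]
      rintro ⟨h6, h7⟩
      exact h (by rw [h6, h7, h4])
    have h6 : cd (Unitization ℂ C₀(ℝ, E)) (wz s n (k + m)) p 1 * pm * ⟨_, h5⟩ =
        cd (Unitization ℂ C₀(ℝ, E)) (wz s n (k + m)) p 1 := by
      apply Subtype.ext
      change (Mt.single p p (1 : Unitization ℂ C₀(ℝ, E)) : Mt (s.S (k + m)) _) * pm.1 *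
        Mt.single q p (algebraMap ℂ (Unitization ℂ C₀(ℝ, E)) μ⁻¹) = Mt.single p p 1
      rw [single_corner, h3, ← map_mul, mul_inv_cancel₀ hμ, map_one]
    rw [← h6, map_mul, map_mul]
    exact cl_right c _ (cl_left c _ h2)
  have hfull := hS _ _ s n hn (fun k => {a | u k a ∈ closure (idl c)})
    (fun k a b ha hb => by
      change u k (a + b) ∈ closure (idl c)
      rw [map_add]
      exact cl_add c ha hb)
    (fun k => by
      change u k 0 ∈ closure (idl c)
      rw [map_zero]
      exact cl_zero c)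
    (fun k a b d hb => by
      change u k (a * b * d) ∈ closure (idl c)
      rw [map_mul, map_mul]
      exact cl_right c _ (cl_left c _ hb))
    (fun k a ha => by
      change u (k + 1) (kd s n k a) ∈ closure (idl c)
      rw [ukd]
      exact ha) (k + m) p hkey
  have he : (⟨1, h1m⟩ : Fix γ Z) ∈ closure (idl c) := by
    have h1 : u (k + m + n) (∑ x, cd _ (wz s n (k + m + n)) x 1) ∈ closure (idl c) := hfull
    have h2 : u (k + m + n) (∑ x, cd _ (wz s n (k + m + n)) x 1) = ⟨1, h1m⟩ := by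
      apply Subtype.ext
      rw [hu]
      have h3 : (∑ x, cd (Unitization ℂ C₀(ℝ, E)) (wz s n (k + m + n)) x 1 :
          Gd (Unitization ℂ C₀(ℝ, E)) (wz s n (k + m + n))).1 = 1 := by
        rw [AddSubmonoidClass.coe_finsetSum]
        exact sum_single_one
      rw [h3, map_one]
    rw [← h2]
    exact h1
  obtain ⟨j, hj, hj1⟩ := Metric.mem_closure_iff.1 he 1 one_pos
  have hj2 : ‖(1 : L) - j.1‖ < 1 := by
    rw [dist_eq_norm] at hj1
    exact hj1
  have hunit : IsUnit (j.1 : L) := by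
    have h := isUnit_one_sub_of_norm_lt_one hj2
    rwa [sub_sub_cancel] at h
  obtain ⟨v, hv⟩ := hunit
  have hvm : ((v⁻¹ : Lˣ) : L) ∈ fixA γ Z := by
    intro z hz
    have h1 : γ.act z (v⁻¹ : Lˣ) * (v : L) = 1 := by
      have h2 : γ.act z (v : L) = v := by
        rw [hv]
        exact j.2 z hz
      calc γ.act z ((v⁻¹ : Lˣ) : L) * (v : L) = γ.act z ((v⁻¹ : Lˣ) : L) * γ.act z (v : L) := by rw [h2]
        _ = 1 := by rw [← map_mul, Units.inv_mul, map_one]
    calc γ.act z ((v⁻¹ : Lˣ) : L) = γ.act z ((v⁻¹ : Lˣ) : L) * ((v : L) * ((v⁻¹ : Lˣ) : L)) := by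
          rw [Units.mul_inv, mul_one]
      _ = _ := by rw [← mul_assoc, h1, one_mul]
  obtain ⟨m', x, y, hxy⟩ := hj
  refine ⟨m', fun l => (⟨_, hvm⟩ : Fix γ Z) * x l * star b, y, ?_⟩
  have h1 : ∑ l, (⟨_, hvm⟩ : Fix γ Z) * x l * star b * b * y l = (⟨_, hvm⟩ : Fix γ Z) * j := by
    rw [hxy, Finset.mul_sum]
    refine Finset.sum_congr rfl fun l _ => ?_
    rw [hc]
    simp only [mul_assoc]
  rw [h1]
  apply Subtype.ext
  change ((v⁻¹ : Lˣ) : L) * j.1 = 1
  rw [← hv, Units.inv_mul]

end

end Pool.Agent.Helper13.CR
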