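import Mathlib
import Pool.Agent.Helper85.CR.Goals

/-!
# Project CR (MP_bdaf95_co), packet FDR: closing a drawing
-/

set_option autoImplicit false

namespace Pool.Agent.Helper13.CR

open Pool.Agent.Helper85.CR
open Equiv Helper28.VF Helper28.PL

/-- The adjacency relation of a plane map is symmetric. -/
theorem disc_symm {W : Type} {S : Set W} {A : W → W → Prop} {l : List W} (h : Disc S A l)
    {x y : W} (hxy : A x y) : A y x := by
  obtain ⟨D, V, E, F, _, _, _, _, M, nm, b, -, -, -, hA, -, -⟩ := h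
  rw [hA] at hxy ⊢
  obtain ⟨d, h1, h2⟩ := hxy
  refine ⟨M.α d, h2, ?_⟩
  rw [M.α_inv]
  exact h1

/-- The new crossings. -/
def nq {V X : Type} (ρ : Fin 4 → V) (q : X → Fin 4 → V) : Option X → Fin 4 → V
  | none => ρ
  | some x => q x

theorem close_adj {V : Type} (G : SimpleGraph V) (ρ : Fin 4 → V) (u v : V) :
    (close G ρ).Adj u v ↔ G.Adj u v ∨ ((s(u, v) = s(ρ 0, ρ 2) ∨ s(u, v) = s(ρ 1, ρ 3)) ∧
      u ≠ v) := by
  unfold close
  rw [SimpleGraph.sup_adj, SimpleGraph.fromEdgeSet_adj]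
  simp only [Set.mem_insert_iff, Set.mem_singleton_iff]

theorem nq_ok {V X : Type} (G : SimpleGraph V) (ρ : Fin 4 → V) (q : X → Fin 4 → V)
    (hρ : Function.Injective ρ) (hq : QOK G q) (h02 : ¬ G.Adj (ρ 0) (ρ 2))
    (h13 : ¬ G.Adj (ρ 1) (ρ 3)) : QOK (close G ρ) (nq ρ q) := by
  have e02 : ρ 0 ≠ ρ 2 := fun h => by
    have := hρ h
    exact absurd this (by decide)
  have e13 : ρ 1 ≠ ρ 3 := fun h => by
    have := hρ h
    exact absurd this (by decide)
  have k : ∀ a b c d : V, G.Adj a b → ¬ G.Adj c d → s(a, b) ≠ s(c, d) := by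
    intro a b c d h1 h2 h3
    rw [← SimpleGraph.mem_edgeSet] at h1 h2
    rw [h3] at h1
    exact h2 h1
  refine ⟨?_, ?_, ?_⟩
  · rintro (_ | x)
    · exact hρ
    · exact hq.inj x
  · rintro (_ | x)
    · constructor
      · rw [close_adj]
        exact Or.inr ⟨Or.inl rfl, e02⟩
      · rw [close_adj]
        exact Or.inr ⟨Or.inr rfl, e13⟩
    · constructor
      · rw [close_adj]
        exact Or.inl (hq.adj x).1
      · rw [close_adj]
        exact Or.inl (hq.adj x).2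
  · rintro (_ | x) (_ | y) hxy
    · exact absurd rfl hxy
    · refine ⟨?_, ?_, ?_⟩
      · exact (k _ _ _ _ (hq.adj y).1 h02).symm
      · exact (k _ _ _ _ (hq.adj y).2 h02).symm
      · exact (k _ _ _ _ (hq.adj y).2 h13).symm
    · refine ⟨?_, ?_, ?_⟩
      · exact k _ _ _ _ (hq.adj x).1 h02
      · exact k _ _ _ _ (hq.adj x).1 h13
      · exact k _ _ _ _ (hq.adj x).2 h13
    · exact hq.dist x y (fun h => hxy (by rw [h]))

theorem gFDR (hTRA : StmtTRA) (hGROW : StmtGROW) (hTOP : StmtTOP) (hONEP : StmtONEP) :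
    StmtFDR := by
  classical
  intro V X _ _ G ρ q hC h02 h13
  obtain ⟨hρ, hq, A, hD, hP⟩ := hC
  have hok := nq_ok G ρ q hρ hq h02 h13
  set f : V ⊕ X → V ⊕ Option X := Sum.map id some with hf
  have hfi : Function.Injective f :=
    Sum.map_injective.mpr ⟨Function.injective_id, Option.some_injective X⟩
  have hD1 := hTRA _ _ f _ _ _ hfi hD
  have hD1' : Disc (f '' Set.univ) (fun x y => ∃ u v, A u v ∧ f u = x ∧ f v = y)
      ((Sum.inl (ρ 0) : V ⊕ Option X) :: ([Sum.inl (ρ 1), Sum.inl (ρ 2)] ++ Sum.inl (ρ 3) :: [])) := by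
    simpa [hf] using hD1
  have hw : (Sum.inr none : V ⊕ Option X) ∉ f '' Set.univ := by
    rintro ⟨x, -, hx⟩
    rcases x with v | x
    · simp [hf] at hx
    · simp [hf] at hx
  have hnd : ((Sum.inl (ρ 0) : V ⊕ Option X) ::
      ([Sum.inl (ρ 1), Sum.inl (ρ 2)] ++ [Sum.inl (ρ 3)])).Nodup := by
    simp [hρ.eq_iff]
  have hD2 := hGROW _ _ _ _ _ _ _ _ hD1' hw hnd
  have huniv : insert (Sum.inr none : V ⊕ Option X) (f '' Set.univ) = Set.univ := by
    ext x
    simp only [Set.mem_insert_iff, Set.mem_univ, iff_true]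
    rcases x with v | x
    · exact Or.inr ⟨Sum.inl v, trivial, by simp [hf]⟩
    · rcases x with _ | x
      · exact Or.inl rfl
      · exact Or.inr ⟨Sum.inr x, trivial, by simp [hf]⟩
  rw [huniv] at hD2
  set B : V ⊕ Option X → V ⊕ Option X → Prop := fun x y =>
    (∃ u v, A u v ∧ f u = x ∧ f v = y) ∨
    (x = Sum.inr none ∧ y ∈ (Sum.inl (ρ 0) : V ⊕ Option X) ::
      ([Sum.inl (ρ 1), Sum.inl (ρ 2)] ++ [Sum.inl (ρ 3)])) ∨
    (y = Sum.inr none ∧ x ∈ (Sum.inl (ρ 0) : V ⊕ Option X) ::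
      ([Sum.inl (ρ 1), Sum.inl (ρ 2)] ++ [Sum.inl (ρ 3)])) with hB
  have hsymm : ∀ x y, B x y → B y x := fun x y h => disc_symm hD2 h
  have hplan : HasPlan (close G ρ) (nq ρ q) (SimpleGraph.fromRel B).Adj := by
    refine ⟨?_, ?_⟩
    · intro u v huv hc
      rw [SimpleGraph.fromRel_adj]
      refine ⟨fun h => (close G ρ).ne_of_adj huv (Sum.inl_injective h), Or.inl ?_⟩
      rw [close_adj] at huv
      rcases huv with huv | ⟨huv, -⟩
      · refine Or.inl ⟨Sum.inl u, Sum.inl v, hP.old u v huv ?_, rfl, rfl⟩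
        rintro ⟨x, hx⟩
        exact hc ⟨some x, hx⟩
      · exact absurd ⟨none, huv⟩ hc
    · rintro (_ | x) i
      · rw [SimpleGraph.fromRel_adj]
        refine ⟨by simp, Or.inl (Or.inr (Or.inr ⟨rfl, ?_⟩))⟩
        fin_cases i <;> simp [nq]
      · rw [SimpleGraph.fromRel_adj]
        refine ⟨by simp, Or.inl (Or.inl ⟨Sum.inl (q x i), Sum.inr x, hP.new x i, rfl, rfl⟩)⟩
  have hpl : Pool.Agent.Helper85.CR.Planar (SimpleGraph.fromRel B) := by
    refine hTOP _ B _ _ hD2 ?_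
    intro u v huv
    rw [SimpleGraph.fromRel_adj] at huv
    rcases huv.2 with h | h
    · exact h
    · exact hsymm _ _ h
  exact hONEP _ V (Option X) (close G ρ) (nq ρ q) _ (Fintype.card_option) hok hplan hpl

end Pool.Agent.Helper13.CR
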